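import Pool.Agent.TH872.An3
import Pool.Agent.N625.DY.K

set_option autoImplicit false

/-! Classes of distributions of random integers given by digits: neighbourhoods, and Goldbach windows. -/

namespace Pool.Agent.N625.DY
open Finset
open Pool.Agent.W93.AU (Law)

variable {b : ℕ} {κ : ℤ} {C : ℕ → (ℕ → ℝ) → Prop}

open Classical in
/-- from the integers to their neighbourhoods -/
lemma cls_near (hC : Cls b κ C) (k U W : ℕ) (hk : 3 ≤ k) (p : ℕ → ℝ) (hp : C k p) (c : ℤ) (Q : ℤ → Prop)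
    (h : ∀ t : ℤ, |t| ≤ (k : ℤ) ^ W →
      ∑ v ∈ range (b ^ k), (if Q (c + t + κ * (v : ℕ)) then 0 else p v) ≤ 1 / (k : ℝ) ^ (U + W + 1)) :
    ∑ v ∈ range (b ^ k), (if (∀ y : ℤ, |y - (c + κ * (v : ℕ))| ≤ (k : ℤ) ^ W → Q y) then 0 else p v) ≤ 1 / (k : ℝ) ^ U := by
  have hp0 := hC.nonneg k p hp
  obtain ⟨Z, hZ⟩ : ∃ Z, Z = k ^ W := ⟨_, rfl⟩
  have hZ' : (k : ℤ) ^ W = Z := by rw [hZ]; push_cast; rfl
  rw [hZ'] at h ⊢
  have h1 : ∑ v ∈ range (b ^ k), (if (∀ y : ℤ, |y - (c + κ * (v : ℕ))| ≤ (Z : ℤ) → Q y) then 0 else p v) ≤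
      ∑ v ∈ range (b ^ k), ∑ t ∈ Icc (-(Z : ℤ)) Z, (if Q (c + t + κ * (v : ℕ)) then 0 else p v) := by
    apply sum_le_sum
    intro v _
    have hnn : ∀ s ∈ Icc (-(Z : ℤ)) Z, 0 ≤ (if Q (c + s + κ * (v : ℕ)) then 0 else p v) := by
      intro s _
      split_ifs
      · exact le_rfl
      · exact hp0 v
    by_cases hv : ∀ y : ℤ, |y - (c + κ * (v : ℕ))| ≤ (Z : ℤ) → Q y
    · rw [if_pos hv]
      exact sum_nonneg hnn
    · rw [if_neg hv]
      push Not at hv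
      obtain ⟨y, hy, hQ⟩ := hv
      have h2 := single_le_sum hnn (mem_Icc.2 (abs_le.1 hy))
      have h3 : ¬ Q (c + (y - (c + κ * (v : ℕ))) + κ * (v : ℕ)) := by
        have : c + (y - (c + κ * (v : ℕ))) + κ * (v : ℕ) = y := by ring
        rw [this]
        exact hQ
      rw [if_neg h3] at h2
      exact h2
  rw [sum_comm] at h1
  have h2 : ∑ t ∈ Icc (-(Z : ℤ)) Z, ∑ v ∈ range (b ^ k), (if Q (c + t + κ * (v : ℕ)) then 0 else p v) ≤
      ∑ _t ∈ Icc (-(Z : ℤ)) Z, 1 / (k : ℝ) ^ (U + W + 1) :=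
    sum_le_sum fun t ht => h t (abs_le.2 (mem_Icc.1 ht))
  refine (h1.trans h2).trans ?_
  rw [sum_const, nsmul_eq_mul]
  have hk3 : (3 : ℝ) ≤ k := by exact_mod_cast hk
  have hcard : ((Icc (-(Z : ℤ)) Z).card : ℝ) ≤ (k : ℝ) ^ W * k := by
    rw [Int.card_Icc]
    have h9 : (((Z : ℤ) + 1 - -(Z : ℤ)).toNat : ℝ) = 2 * Z + 1 := by
      have : ((Z : ℤ) + 1 - -(Z : ℤ)).toNat = 2 * Z + 1 := by omega
      rw [this]
      push_cast
      ring
    rw [h9, hZ]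
    push_cast
    have h10 : (1 : ℝ) ≤ (k : ℝ) ^ W := one_le_pow₀ (by linarith)
    nlinarith
  calc ((Icc (-(Z : ℤ)) Z).card : ℝ) * (1 / (k : ℝ) ^ (U + W + 1))
      ≤ ((k : ℝ) ^ W * k) * (1 / (k : ℝ) ^ (U + W + 1)) := mul_le_mul_of_nonneg_right hcard (by positivity)
    _ = 1 / (k : ℝ) ^ U := by
        rw [pow_succ, pow_add]
        field_simp

lemma pow_ev (b W : ℕ) (hb : 2 ≤ b) : ∃ k₀ : ℕ, ∀ k : ℕ, k₀ ≤ k → k ^ W ≤ b ^ k := by
  have h2 := (isLittleO_pow_const_const_pow_of_one_lt (R := ℝ) W (by norm_num : (1 : ℝ) < 2)).bound (by norm_num : (0 : ℝ) < 1)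
  obtain ⟨k₁, hk₁⟩ := Filter.eventually_atTop.1 h2
  refine ⟨k₁, fun k hk => ?_⟩
  have h3 := hk₁ k hk
  rw [Real.norm_of_nonneg (by positivity), Real.norm_of_nonneg (by positivity), one_mul] at h3
  have h4 : k ^ W ≤ 2 ^ k := by exact_mod_cast h3
  exact h4.trans (Nat.pow_le_pow_left hb k)

open Classical in
/-- Goldbach windows for the integers near the random integers of a class -/
theorem cls_gold (hC : Cls b κ C) (B A W U m₀ : ℕ) (ε : ℝ) (hε : 0 < ε) (P : ℕ → Prop)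
    (hP : ∀ m : ℕ, m₀ ≤ m → 2 ∣ m → Pool.Agent.W93.PG.WinP ε A m → P m) (Q : ℤ → Prop)
    (hQ : ∀ y, ¬ Q y → 0 < y ∧ Even y ∧ ¬ P y.toNat) :
    ∃ k₀ : ℕ, ∀ k : ℕ, k₀ ≤ k → ∀ p, C k p → ∀ c : ℤ, |c| ≤ B * (b : ℤ) ^ k →
    ∑ v ∈ range (b ^ k), (if (∀ y : ℤ, |y - (c + κ * (v : ℕ))| ≤ (k : ℤ) ^ W → Q y) then 0 else p v) ≤
      1 / (k : ℝ) ^ U := by
  have hb := hC.two
  obtain ⟨F, hF, hlaw⟩ := hC.law
  obtain ⟨e, he⟩ : ∃ e : ℕ, e = 2 * (B + 1) + κ.natAbs + 2 := ⟨_, rfl⟩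
  obtain ⟨W1, K1, hanti⟩ := hC.anti e (U + W + 1)
  obtain ⟨V, hV⟩ := Pool.Agent.TH872.An.windows_any b F (U + W + 1) A m₀ (W1 + 1) hb hF ε hε P hP
  obtain ⟨D, K₀, hD⟩ := hlaw e V
  obtain ⟨K2, h2⟩ := hV D
  obtain ⟨k3, h3⟩ := pow_ev b W hb
  refine ⟨K₀ + K1 + K2 + k3 + 3, fun k hk p hp c hc => ?_⟩
  apply cls_near hC k U W (by omega) p hp c
  intro t ht
  have hW : (k : ℤ) ^ W ≤ (b : ℤ) ^ k := by exact_mod_cast h3 k (by omega)
  have hct : |c + t| ≤ ((B + 1 : ℕ) : ℤ) * (b : ℤ) ^ k := by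
    have := abs_add_le c t
    push_cast
    linarith
  have key := h2 (k + e) (by omega) ℕ (range (b ^ k)) p (fun v => c + t + κ * (v : ℕ)) (hD (k + e) (by omega) k rfl p hp (c + t))
    (fun v hv => by
      rw [mem_range] at hv
      have h4 := val_bd hb (B + 1) κ k (c + t) hct v hv
      rw [← he] at h4
      have h5 : (0 : ℤ) < (b : ℤ) ^ k := by positivity
      push_cast at h4 ⊢
      nlinarith)
    (fun Sm _ hSm => hanti (k + e) (by omega) k rfl p hp (c + t) Sm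
      (fun v hv hs => hSm v (mem_range.2 hv) hs))
    (fun v => ¬ Q (c + t + κ * (v : ℕ)))
    (fun v _ hv => hQ _ hv)
  have hk0 : (0 : ℝ) < k := by exact_mod_cast (by omega : 0 < k)
  calc ∑ v ∈ range (b ^ k), (if Q (c + t + κ * (v : ℕ)) then 0 else p v) =
      ∑ v ∈ range (b ^ k), (if ¬ Q (c + t + κ * (v : ℕ)) then p v else 0) := by
        apply sum_congr rfl
        intro v _
        by_cases hv : Q (c + t + κ * (v : ℕ))
        · rw [if_pos hv, if_neg (not_not.2 hv)]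
        · rw [if_neg hv, if_pos hv]
    _ ≤ 1 / ((k + e : ℕ) : ℝ) ^ (U + W + 1) := key
    _ ≤ 1 / (k : ℝ) ^ (U + W + 1) := by
        apply one_div_le_one_div_of_le (by positivity)
        apply pow_le_pow_left₀ hk0.le
        exact_mod_cast (by omega : k ≤ k + e)

end Pool.Agent.N625.DY
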