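import Pool.Agent.N625.DY.K

set_option autoImplicit false

/-! Correlations of the Möbius function with arbitrary weights, one shift running through a class. -/

namespace Pool.Agent.N625.DY
open Finset

variable {b : ℕ} {κ : ℤ} {C : ℕ → (ℕ → ℝ) → Prop}

/-- The Möbius function on the integers, `0` at the integers `m ≤ 0`, with complex values. -/
noncomputable def mu (m : ℤ) : ℂ := if 1 ≤ m then ((ArithmeticFunction.moebius m.toNat : ℤ) : ℂ) else 0

/-- the sums are small for all the shifts near `y` -/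
def SmallM (B U W N k : ℕ) {L : ℕ} (α : Fin L → ℕ) (g : Fin L → ℕ → ℂ) (y : ℤ) : Prop :=
  ∀ y' : ℤ, |y' - y| ≤ (k : ℤ) ^ W → ∀ l, ∀ x : ℕ, α l * x ≤ B * N →
    ‖∑ n ∈ Icc 1 x, g l n * mu (α l * n + y')‖ ≤ N / (k : ℝ) ^ U

open Classical in
theorem cls_mob (hC : Cls b κ C) (B T W U : ℕ) : ∃ k₀ : ℕ, ∀ k : ℕ, k₀ ≤ k → ∀ p, C k p → ∀ c : ℤ, |c| ≤ B * (b : ℤ) ^ k →
    ∀ L : ℕ, (L : ℝ) ≤ (k : ℝ) ^ T → ∀ (α : Fin L → ℕ) (g : Fin L → ℕ → ℂ),
      (∀ l, 1 ≤ α l) → (∀ l n, ‖g l n‖ ≤ (k : ℝ) ^ T) →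
      ∑ v ∈ range (b ^ k), (if SmallM B U W (b ^ k) k α g (c + κ * (v : ℕ)) then 0 else p v) ≤ 1 / (k : ℝ) ^ U := by
  classical
  have hb := hC.two
  obtain ⟨F, hF, hlaw⟩ := hC.law
  obtain ⟨e, he⟩ : ∃ e : ℕ, e = 2 * B + κ.natAbs + 2 := ⟨_, rfl⟩
  obtain ⟨V, hV⟩ := Pool.Agent.R459.law_near_k b F hb hF Pool.Agent.H373R2.T7.muC Pool.Agent.W93.LM.nice_muC B T W U e
  obtain ⟨D, K₀, hD⟩ := hlaw e V
  obtain ⟨k₀, h0⟩ := hV D
  refine ⟨K₀ + k₀ + 1, fun k hk p hp c hc L hL α g hα hg => ?_⟩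
  have key := h0 k (by omega) ℕ (range (b ^ k)) p (fun v => c + κ * (v : ℕ)) (hD (k + e) (by omega) k rfl p hp c)
    (fun v hv => by
      rw [mem_range] at hv
      rw [he]
      exact val_bd hb B κ k c hc v hv) L hL
    (fun l => if hl : l < L then α ⟨l, hl⟩ else 1)
    (fun l n => if hl : l < L then g ⟨l, hl⟩ n else 0)
    (fun l hl => by simp only [hl, dif_pos]; exact hα _)
    (fun l hl n hn hnB => by
      simp only [hl, dif_pos]
      exact hg _ n)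
    (fun v => ¬ SmallM B U W (b ^ k) k α g (c + κ * (v : ℕ)))
    (fun v _ hv => by
      unfold SmallM at hv
      push Not at hv
      obtain ⟨y', hy', l, x, hx, h2⟩ := hv
      refine ⟨y' - (c + κ * (v : ℕ)), hy', l, l.2, x, by simpa only [l.2, dif_pos] using hx, ?_⟩
      simp only [l.2, dif_pos]
      push_cast at h2 ⊢
      refine lt_of_lt_of_eq h2 ?_
      congr 1
      apply sum_congr rfl
      intro n _
      congr 1
      unfold mu Pool.Agent.H373R2.T7.exI Pool.Agent.H373R2.T7.muC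
      have e1 : (α l : ℤ) * (n : ℤ) + (c + κ * (v : ℤ) + (y' - (c + κ * (v : ℤ)))) = (α l : ℤ) * n + y' := by ring
      rw [e1])
  refine le_trans (le_of_eq ?_) key
  apply sum_congr rfl
  intro v _
  by_cases hv : SmallM B U W (b ^ k) k α g (c + κ * (v : ℕ))
  · rw [if_pos hv, if_neg (not_not.2 hv)]
  · rw [if_neg hv, if_pos hv]

end Pool.Agent.N625.DY
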