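import Pool.Agent.N625.DY.K

set_option autoImplicit false

/-! Correlations of the Liouville function with several random shifts. -/

namespace Pool.Agent.N625.DY
open Finset
open Pool.Agent.R459.Shift (lam)

open Classical in
/-- a condition which is rare in one coordinate is rare -/
lemma fub {s : ℕ} (i : Fin s) (R : Finset ℕ) (p : Fin s → ℕ → ℝ) (h0 : ∀ j v, 0 ≤ p j v) (h1 : ∀ j, ∑ v ∈ R, p j v = 1)
    (E : (Fin s → ℕ) → Prop) (x : ℝ)
    (h : ∀ v : Fin s → ℕ, (∀ j, v j ∈ R) → ∑ w ∈ R, (if E (Function.update v i w) then p i w else 0) ≤ x) :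
    ∑ v ∈ Fintype.piFinset (fun _ : Fin s => R), (if E v then ∏ j, p j (v j) else 0) ≤ x := by
  have hR : R.Nonempty := by
    rw [nonempty_iff_ne_empty]
    intro hR
    have := h1 i
    rw [hR, sum_empty] at this
    exact zero_ne_one this
  obtain ⟨r, hr⟩ := hR
  have e1 : ∑ v ∈ Fintype.piFinset (fun _ : Fin s => R), (if E v then ∏ j, p j (v j) else 0) =
      ∑ q ∈ R ×ˢ Fintype.piFinset (fun _ : {j // j ≠ i} => R),
        (if E ((Equiv.funSplitAt i ℕ).symm q) then p i q.1 * ∏ j : {j // j ≠ i}, p (j : Fin s) (q.2 j) else 0) := by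
    apply sum_nbij' (fun v => (Equiv.funSplitAt i ℕ) v) (fun q => (Equiv.funSplitAt i ℕ).symm q)
    · intro v hv
      rw [Fintype.mem_piFinset] at hv
      rw [mem_product, Fintype.mem_piFinset]
      exact ⟨hv i, fun j => hv j⟩
    · intro q hq
      rw [mem_product, Fintype.mem_piFinset] at hq
      rw [Fintype.mem_piFinset]
      intro j
      rw [Equiv.funSplitAt_symm_apply]
      split_ifs with hj
      · exact hq.1
      · exact hq.2 _
    · intro v _; exact Equiv.symm_apply_apply _ _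
    · intro q _; exact Equiv.apply_symm_apply _ _
    · intro v _
      rw [Equiv.symm_apply_apply, Fintype.prod_eq_mul_prod_subtype_ne (fun j => p j (v j)) i]
      rfl
  rw [e1, sum_product_right]
  have e2 : ∀ u ∈ Fintype.piFinset (fun _ : {j // j ≠ i} => R),
      ∑ w ∈ R, (if E ((Equiv.funSplitAt i ℕ).symm (w, u)) then p i w * ∏ j : {j // j ≠ i}, p (j : Fin s) (u j) else 0) ≤
        x * ∏ j : {j // j ≠ i}, p (j : Fin s) (u j) := by
    intro u hu
    rw [Fintype.mem_piFinset] at hu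
    have hP : 0 ≤ ∏ j : {j // j ≠ i}, p (j : Fin s) (u j) := prod_nonneg fun j _ => h0 _ _
    have hv := h ((Equiv.funSplitAt i ℕ).symm (r, u)) (by
      intro j
      rw [Equiv.funSplitAt_symm_apply]
      split_ifs with hj
      · exact hr
      · exact hu _)
    refine le_trans (le_of_eq ?_) (mul_le_mul_of_nonneg_right hv hP)
    rw [sum_mul]
    apply sum_congr rfl
    intro w _
    have e3 : Function.update ((Equiv.funSplitAt i ℕ).symm (r, u)) i w = (Equiv.funSplitAt i ℕ).symm (w, u) := by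
      funext j
      by_cases hj : j = i
      · subst hj
        rw [Function.update_self, Equiv.funSplitAt_symm_apply]
        simp
      · rw [Function.update_of_ne hj, Equiv.funSplitAt_symm_apply, Equiv.funSplitAt_symm_apply]
        simp [hj]
    rw [e3, ite_mul, zero_mul]
  refine (sum_le_sum e2).trans ?_
  rw [← mul_sum]
  have e3 : ∑ u ∈ Fintype.piFinset (fun _ : {j // j ≠ i} => R), ∏ j : {j // j ≠ i}, p (j : Fin s) (u j) = 1 := by
    rw [← prod_univ_sum (fun _ : {j // j ≠ i} => R) (fun j v => p (j : Fin s) v)]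
    exact prod_eq_one fun j _ => h1 _
  rw [e3, mul_one]

/-- All the correlations of the values `λ (a i * n + y i)` are small, also with the weights `θ l`. -/
def SmallT (B U N k : ℕ) {s L : ℕ} (a : Fin s → ℕ) (θ : Fin L → ℕ → ℂ) (y : Fin s → ℤ) : Prop :=
  ∀ I : Finset (Fin s), I.Nonempty → ∀ l, ∀ x : ℕ, (∀ i ∈ I, a i * x ≤ B * N) →
    ‖∑ n ∈ Icc 1 x, θ l n * ∏ i ∈ I, (lam (a i * n + y i) : ℂ)‖ ≤ N / (k : ℝ) ^ U

/-- the same for all the vectors near `y` -/
def NearT (W k : ℕ) {s : ℕ} (Q : (Fin s → ℤ) → Prop) (y : Fin s → ℤ) : Prop :=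
  ∀ y' : Fin s → ℤ, (∀ i, |y' i - y i| ≤ (k : ℤ) ^ W) → Q y'

lemma norm_lam (m : ℤ) : ‖(lam m : ℂ)‖ ≤ 1 := by
  unfold lam
  split_ifs
  · push_cast
    rw [norm_pow, norm_neg, norm_one, one_pow]
  · simp

open Classical in
/-- one coordinate -/
lemma one_coord {b : ℕ} {κ : ℤ} {C : ℕ → (ℕ → ℝ) → Prop} (hC : Cls b κ C) (s B T W U : ℕ) : ∃ k₀ : ℕ, ∀ k : ℕ, k₀ ≤ k →
    ∀ p, C k p → ∀ c : ℤ, |c| ≤ B * (b : ℤ) ^ k → ∀ L : ℕ, (L : ℝ) ≤ (k : ℝ) ^ T → ∀ (i : Fin s) (a : Fin s → ℕ) (θ : Fin L → ℕ → ℂ),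
      (∀ j, 1 ≤ a j) → (∀ l n, ‖θ l n‖ ≤ 1) → ∀ z : Fin s → ℤ,
      ∑ w ∈ range (b ^ k), (if ∃ y' : Fin s → ℤ, (∀ j, j ≠ i → |y' j - z j| ≤ (k : ℤ) ^ W) ∧ |y' i - (c + κ * (w : ℕ))| ≤ (k : ℤ) ^ W ∧
        ∃ I : Finset (Fin s), i ∈ I ∧ ∃ l, ∃ x : ℕ, (∀ i ∈ I, a i * x ≤ B * b ^ k) ∧
          ((b ^ k : ℕ) : ℝ) / (k : ℝ) ^ U < ‖∑ n ∈ Icc 1 x, θ l n * ∏ i ∈ I, (lam (a i * n + y' i) : ℂ)‖ then p w else 0) ≤
        1 / (k : ℝ) ^ U := by
  obtain ⟨k₀, h0⟩ := cls_joint hC 0 B (T + (W + 2) * s + s) W U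
  refine ⟨k₀ + 2, fun k hk p hp c hc L hL i a θ ha hθ z => ?_⟩
  have hk2 : 2 ≤ k := by omega
  have hkr : (2 : ℝ) ≤ k := by exact_mod_cast hk2
  -- the index set of the weights
  obtain ⟨J, hJ⟩ : ∃ J : Finset (Fin L × Finset (Fin s) × (Fin s → ℤ)), J = univ ×ˢ univ ×ˢ
    Fintype.piFinset (fun _ : Fin s => Icc (-((k : ℤ) ^ W)) ((k : ℤ) ^ W)) := ⟨_, rfl⟩
  have hJc : (J.card : ℝ) ≤ (k : ℝ) ^ (T + (W + 2) * s + s) := by
    rw [hJ, card_product, card_product, card_univ, card_univ, Fintype.card_fin, Fintype.card_finset, Fintype.card_fin,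
      Fintype.card_piFinset_const, Int.card_Icc]
    push_cast
    have e1 : (((k : ℤ) ^ W + 1 - -((k : ℤ) ^ W)).toNat : ℝ) ≤ (k : ℝ) ^ (W + 2) := by
      have e2 : (((k : ℤ) ^ W + 1 - -((k : ℤ) ^ W)).toNat : ℤ) = 2 * (k : ℤ) ^ W + 1 := by
        have e0 : (0 : ℤ) ≤ (k : ℤ) ^ W := by positivity
        rw [Int.toNat_of_nonneg (by linarith)]
        ring
      have e3 : (((k : ℤ) ^ W + 1 - -((k : ℤ) ^ W)).toNat : ℝ) = 2 * (k : ℝ) ^ W + 1 := by exact_mod_cast e2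
      rw [e3, pow_add]
      have e4 : (1 : ℝ) ≤ (k : ℝ) ^ W := one_le_pow₀ (by linarith)
      have e5 : (4 : ℝ) ≤ (k : ℝ) ^ 2 := by nlinarith
      have e6 : (k : ℝ) ^ W * 4 ≤ (k : ℝ) ^ W * (k : ℝ) ^ 2 := mul_le_mul_of_nonneg_left e5 (by linarith)
      linarith
    have e5 : (2 : ℝ) ^ s ≤ (k : ℝ) ^ s := pow_le_pow_left₀ (by norm_num) hkr s
    calc (L : ℝ) * (2 ^ s * (((k : ℤ) ^ W + 1 - -((k : ℤ) ^ W)).toNat : ℝ) ^ s) ≤ (k : ℝ) ^ T * ((k : ℝ) ^ s * ((k : ℝ) ^ (W + 2)) ^ s) := by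
          apply mul_le_mul hL _ (by positivity) (by positivity)
          apply mul_le_mul e5 _ (by positivity) (by positivity)
          exact pow_le_pow_left₀ (Nat.cast_nonneg _) e1 s
      _ = _ := by rw [← pow_mul, ← pow_add, ← pow_add]; congr 1; ring
  have key := h0 k (by omega) p hp c hc J.card hJc
    (fun q => a i) (fun _ => Fin.elim0) (fun _ => Fin.elim0)
    (fun q n => θ (J.equivFin.symm q).1.1 n * ∏ j ∈ (J.equivFin.symm q).1.2.1.erase i,
      (lam (a j * n + (z j + (J.equivFin.symm q).1.2.2 j)) : ℂ))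
    (fun _ => ha i) (fun _ j => j.elim0) (fun q n => by
      rw [norm_mul, norm_prod]
      calc _ ≤ (1 : ℝ) * 1 := mul_le_mul (hθ _ _) (prod_le_one (fun _ _ => norm_nonneg _) fun _ _ => norm_lam _)
            (prod_nonneg fun _ _ => norm_nonneg _) zero_le_one
        _ = 1 := one_mul 1)
  refine le_trans (sum_le_sum fun w _ => ?_) key
  have hp0 := hC.nonneg k p hp w
  by_cases hS : Small B U W (b ^ k) k (fun _ : Fin J.card => a i) (fun _ => Fin.elim0) (fun _ => Fin.elim0)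
      (fun q n => θ (J.equivFin.symm q).1.1 n * ∏ j ∈ (J.equivFin.symm q).1.2.1.erase i,
      (lam (a j * n + (z j + (J.equivFin.symm q).1.2.2 j)) : ℂ)) (c + κ * (w : ℕ))
  · rw [if_pos hS, if_neg]
    rintro ⟨y', h1, h2, I, hiI, l, x, hx, hbig⟩
    obtain ⟨t, ht⟩ : ∃ t : Fin s → ℤ, t = fun j => if j = i then 0 else y' j - z j := ⟨_, rfl⟩
    have hmem : (l, I, t) ∈ J := by
      rw [hJ, mem_product, mem_product, Fintype.mem_piFinset]
      refine ⟨mem_univ _, mem_univ _, fun j => ?_⟩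
      rw [mem_Icc, ← abs_le, ht]
      simp only
      split_ifs with hj
      · rw [abs_zero]; positivity
      · exact h1 j hj
    have h3 := hS (y' i) h2 (J.equivFin ⟨(l, I, t), hmem⟩) x (hx i hiI)
    simp only [Equiv.symm_apply_apply, univ_eq_empty, prod_empty, mul_one] at h3
    apply absurd h3 (not_le.2 ?_)
    refine lt_of_lt_of_eq hbig ?_
    congr 1
    apply sum_congr rfl
    intro n _
    rw [← mul_prod_erase I _ hiI, mul_comm ((lam (a i * n + y' i) : ℤ) : ℂ), ← mul_assoc]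
    congr 2
    apply prod_congr rfl
    intro j hj
    rw [mem_erase] at hj
    rw [ht]
    simp only [if_neg hj.1]
    congr 3
    ring
  · rw [if_neg hS]
    split_ifs
    · exact le_rfl
    · exact hp0

open Classical in
/-- **correlations with several random shifts** -/
theorem cls_chowla (s : ℕ) (b : ℕ) (κ : Fin s → ℤ) (C : Fin s → ℕ → (ℕ → ℝ) → Prop) (hC : ∀ i, Cls b (κ i) (C i)) (B T W U : ℕ) :
    ∃ k₀ : ℕ, ∀ k : ℕ, k₀ ≤ k → ∀ p : Fin s → ℕ → ℝ, (∀ i, C i k (p i)) → ∀ c : Fin s → ℤ, (∀ i, |c i| ≤ B * (b : ℤ) ^ k) →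
      ∀ L : ℕ, (L : ℝ) ≤ (k : ℝ) ^ T → ∀ (a : Fin s → ℕ) (θ : Fin L → ℕ → ℂ), (∀ j, 1 ≤ a j) → (∀ l n, ‖θ l n‖ ≤ 1) →
      ∑ v ∈ Fintype.piFinset (fun _ : Fin s => range (b ^ k)),
        (if NearT W k (SmallT B U (b ^ k) k a θ) (fun i => c i + κ i * (v i : ℕ)) then 0 else ∏ i, p i (v i)) ≤ 1 / (k : ℝ) ^ U := by
  choose k₀ h0 using fun i => one_coord (hC i) s B T W (U + 1)
  refine ⟨∑ i, k₀ i + s + 1, fun k hk p hp c hc L hL a θ ha hθ => ?_⟩
  have hk1 : (1 : ℝ) ≤ k := by exact_mod_cast (by omega : 1 ≤ k)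
  have hk0 : ∀ i, k₀ i ≤ k := fun i => by
    have := single_le_sum (f := k₀) (fun _ _ => Nat.zero_le _) (mem_univ i)
    omega
  have hsk : (s : ℝ) ≤ k := by exact_mod_cast (by omega : s ≤ k)
  obtain ⟨E, hE⟩ : ∃ E : Fin s → (Fin s → ℕ) → Prop, E = fun i v => ∃ y' : Fin s → ℤ, (∀ j, |y' j - (c j + κ j * (v j : ℕ))| ≤ (k : ℤ) ^ W) ∧
        ∃ I : Finset (Fin s), i ∈ I ∧ ∃ l, ∃ x : ℕ, (∀ i ∈ I, a i * x ≤ B * b ^ k) ∧
          ((b ^ k : ℕ) : ℝ) / (k : ℝ) ^ (U + 1) < ‖∑ n ∈ Icc 1 x, θ l n * ∏ i ∈ I, (lam (a i * n + y' i) : ℂ)‖ := ⟨_, rfl⟩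
  have hfub : ∀ i, ∑ v ∈ Fintype.piFinset (fun _ : Fin s => range (b ^ k)), (if E i v then ∏ j, p j (v j) else 0) ≤ 1 / (k : ℝ) ^ (U + 1) := by
    intro i
    apply fub i (range (b ^ k)) p (fun j v => (hC j).nonneg k _ (hp j) v) (fun j => (hC j).sum k _ (hp j)) (E i)
    intro v _
    refine le_trans (sum_le_sum fun w _ => ?_) (h0 i k (hk0 i) (p i) (hp i) (c i) (hc i) L hL i a θ ha hθ (fun j => c j + κ j * (v j : ℕ)))
    have hp0 := (hC i).nonneg k _ (hp i) w
    by_cases hEw : E i (Function.update v i w)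
    · rw [if_pos hEw, if_pos]
      rw [hE] at hEw
      obtain ⟨y', h1, I, h2⟩ := hEw
      refine ⟨y', fun j hj => ?_, ?_, I, h2⟩
      · have := h1 j
        rwa [Function.update_of_ne hj] at this
      · have := h1 i
        rwa [Function.update_self] at this
    · rw [if_neg hEw]
      split_ifs
      · exact hp0
      · exact le_rfl
  have hbound : ∀ v ∈ Fintype.piFinset (fun _ : Fin s => range (b ^ k)),
      (if NearT W k (SmallT B U (b ^ k) k a θ) (fun i => c i + κ i * (v i : ℕ)) then 0 else ∏ i, p i (v i)) ≤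
        ∑ i, (if E i v then ∏ j, p j (v j) else 0) := by
    intro v _
    have hp0 : 0 ≤ ∏ j, p j (v j) := prod_nonneg fun j _ => (hC j).nonneg k _ (hp j) _
    have hn : 0 ≤ ∑ i, (if E i v then ∏ j, p j (v j) else 0) := sum_nonneg fun i _ => by
      split_ifs
      · exact hp0
      · exact le_rfl
    by_cases hS : NearT W k (SmallT B U (b ^ k) k a θ) (fun i => c i + κ i * (v i : ℕ))
    · rw [if_pos hS]
      exact hn
    · rw [if_neg hS]
      unfold NearT SmallT at hS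
      push Not at hS
      obtain ⟨y', h1, I, hI, l, x, hx, hbig⟩ := hS
      obtain ⟨i, hi⟩ := hI
      have hEi : E i v := by
        rw [hE]
        refine ⟨y', h1, I, hi, l, x, hx, lt_of_le_of_lt ?_ hbig⟩
        apply div_le_div_of_nonneg_left (by positivity) (by positivity)
        exact pow_le_pow_right₀ hk1 (by omega)
      have := single_le_sum (f := fun i => if E i v then ∏ j, p j (v j) else 0) (fun i _ => by
        by_cases h : E i v
        · simp only [if_pos h]; exact hp0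
        · simp only [if_neg h]; exact le_rfl) (mem_univ i)
      simp only [if_pos hEi] at this
      exact this
  refine (sum_le_sum hbound).trans ?_
  rw [sum_comm]
  refine (sum_le_sum fun i _ => hfub i).trans ?_
  rw [sum_const, card_univ, Fintype.card_fin, nsmul_eq_mul, pow_succ]
  rw [mul_one_div, div_le_div_iff₀ (by positivity) (by positivity)]
  nlinarith [pow_pos (by linarith : (0 : ℝ) < k) U]

end Pool.Agent.N625.DY
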