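import Pool.Agent.N625.DY.I
import Pool.Agent.N625.DY.J

set_option autoImplicit false

/-! Classes of distributions of random integers given by digits: level of distribution for all the residues nearby, and
for many systems of weights. -/

namespace Pool.Agent.N625.DY
open Finset

variable {b : ℕ} {κ : ℤ} {C : ℕ → (ℕ → ℝ) → Prop}

lemma level_mono {B B' U U' k : ℕ} {ε : ℝ} {lam : ℕ → ℝ} {a : ℕ} (hk : 1 ≤ k) (hB : B ≤ B') (hU : U ≤ U')
    (h : Level b B' U' k ε lam a) : Level b B U k ε lam a := by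
  intro x hx
  refine (h x (hx.trans (Nat.mul_le_mul_right _ hB))).trans ?_
  have hk1 : (1 : ℝ) ≤ k := by exact_mod_cast hk
  apply div_le_div_of_nonneg_left (Nat.cast_nonneg _) (by positivity)
  exact pow_le_pow_right₀ hk1 hU

open Classical in
/-- almost all residues have the level of distribution `1 - ε`, together with the residues nearby -/
theorem cls_level_near (hC : Cls b κ C) (B T W U : ℕ) (ε : ℝ) (hε : 0 < ε) :
    ∃ k₀ : ℕ, ∀ k : ℕ, k₀ ≤ k → ∀ p, C k p → ∀ c : ℤ, |c| ≤ B * (b : ℤ) ^ k → ∀ L : ℕ, (L : ℝ) ≤ (k : ℝ) ^ T →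
    ∀ lam : Fin L → ℕ → ℝ, (∀ l q, |lam l q| ≤ (k : ℝ) ^ T) →
    ∑ v ∈ range (b ^ k), (if (∀ y : ℤ, |y - (c + κ * (v : ℕ))| ≤ (k : ℤ) ^ W → 0 < y → ∀ l, Level b B U k ε (lam l) y.toNat) then 0
      else p v) ≤ 1 / (k : ℝ) ^ U := by
  have hb := hC.two
  obtain ⟨k₀, h0⟩ := cls_level hC (B + 1) T (U + W + T + 2) ε hε
  obtain ⟨k3, h3⟩ := pow_ev b W hb
  refine ⟨k₀ + k3 + 3, fun k hk p hp c hc L hL lam hlam => ?_⟩
  have hk1 : (1 : ℝ) ≤ k := by exact_mod_cast (by omega : 1 ≤ k)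
  apply cls_near hC k U W (by omega) p hp c (fun y => 0 < y → ∀ l, Level b B U k ε (lam l) y.toNat)
  intro t ht
  have hW : (k : ℤ) ^ W ≤ (b : ℤ) ^ k := by exact_mod_cast h3 k (by omega)
  have hct : |c + t| ≤ ((B + 1 : ℕ) : ℤ) * (b : ℤ) ^ k := by
    have := abs_add_le c t
    push_cast
    linarith
  have hp0 := hC.nonneg k p hp
  have key : ∀ l, ∑ v ∈ range (b ^ k), (if (0 < c + t + κ * (v : ℕ) → Level b (B + 1) (U + W + T + 2) k ε (lam l) (c + t + κ * (v : ℕ)).toNat)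
      then 0 else p v) ≤ 1 / (k : ℝ) ^ (U + W + T + 2) := fun l => h0 k (by omega) p hp (c + t) hct (lam l) (hlam l)
  have hbound : ∀ v ∈ range (b ^ k), (if (0 < c + t + κ * (v : ℕ) → ∀ l, Level b B U k ε (lam l) (c + t + κ * (v : ℕ)).toNat)
      then 0 else p v) ≤ ∑ l, (if (0 < c + t + κ * (v : ℕ) → Level b (B + 1) (U + W + T + 2) k ε (lam l) (c + t + κ * (v : ℕ)).toNat)
      then 0 else p v) := by
    intro v _
    have hnn : ∀ l, 0 ≤ (if (0 < c + t + κ * (v : ℕ) → Level b (B + 1) (U + W + T + 2) k ε (lam l) (c + t + κ * (v : ℕ)).toNat)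
      then 0 else p v) := fun l => by
      split_ifs
      · exact le_rfl
      · exact hp0 v
    by_cases h : 0 < c + t + κ * (v : ℕ) → ∀ l, Level b B U k ε (lam l) (c + t + κ * (v : ℕ)).toNat
    · rw [if_pos h]
      exact sum_nonneg fun l _ => hnn l
    · rw [if_neg h]
      push Not at h
      obtain ⟨h1, l, h2⟩ := h
      have h4 : ¬ (0 < c + t + κ * (v : ℕ) → Level b (B + 1) (U + W + T + 2) k ε (lam l) (c + t + κ * (v : ℕ)).toNat) := fun h5 =>
        h2 (level_mono (by omega) (by omega) (by omega) (h5 h1))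
      have h5 := single_le_sum (f := fun l => (if (0 < c + t + κ * (v : ℕ) → Level b (B + 1) (U + W + T + 2) k ε (lam l) (c + t + κ * (v : ℕ)).toNat)
        then 0 else p v)) (fun l _ => hnn l) (mem_univ l)
      rw [if_neg h4] at h5
      exact h5
  have hfin : ∑ v ∈ range (b ^ k), (if (0 < c + t + κ * (v : ℕ) → ∀ l, Level b B U k ε (lam l) (c + t + κ * (v : ℕ)).toNat)
      then 0 else p v) ≤ ∑ _l : Fin L, 1 / (k : ℝ) ^ (U + W + T + 2) := by
    refine (sum_le_sum hbound).trans ?_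
    rw [sum_comm]
    exact sum_le_sum fun l _ => key l
  refine le_trans (le_of_eq ?_) (hfin.trans ?_)
  · apply sum_congr rfl
    intro v _
    congr
  rw [sum_const, card_univ, Fintype.card_fin, nsmul_eq_mul]
  calc (L : ℝ) * (1 / (k : ℝ) ^ (U + W + T + 2)) ≤ (k : ℝ) ^ T * (1 / (k : ℝ) ^ (U + W + T + 2)) :=
        mul_le_mul_of_nonneg_right hL (by positivity)
    _ = 1 / (k : ℝ) ^ (U + W + 2) := by
        rw [show U + W + T + 2 = T + (U + W + 2) by ring, pow_add]
        field_simp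
    _ ≤ 1 / (k : ℝ) ^ (U + W + 1) := by
        apply one_div_le_one_div_of_le (by positivity)
        exact pow_le_pow_right₀ hk1 (by omega)

end Pool.Agent.N625.DY
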