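import Pool.Agent.N625.DY.N
import Pool.Agent.N625.DY.F

set_option autoImplicit false

/-! Words with brackets: products of many consecutive values of the Liouville function and of several random shifts. -/

namespace Pool.Agent.N625.DY
open Finset
open Pool.Agent.R459.Shift (lam)

/-- the sums are small, with the weights `θ l` and products of consecutive values -/
def SmallC (B T U N k : ℕ) {s L : ℕ} (a : Fin s → ℕ) (θ : Fin L → ℕ → ℂ) (y : Fin s → ℤ) : Prop :=
  ∀ I : Finset (Fin s), I.Nonempty → ∀ r : ℕ, r ≤ k ^ T → ∀ l, ∀ x : ℕ, (∀ i ∈ I, a i * x ≤ B * N) →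
    ‖∑ n ∈ Icc 1 x, θ l n * (∏ j ∈ range r, (lam (n + j) : ℂ)) * ∏ i ∈ I, (lam (a i * n + y i) : ℂ)‖ ≤ N / (k : ℝ) ^ U

lemma smallC_of {B T U N k : ℕ} {s L : ℕ} (a : Fin s → ℕ) (θ : Fin L → ℕ → ℂ) (y : Fin s → ℤ)
    (h : SmallT B U N k a (fun (q : Fin ((k ^ T + 1) * L)) n => θ (finProdFinEquiv.symm q).2 n *
      ∏ j ∈ range (finProdFinEquiv.symm q).1, (lam (n + j) : ℂ)) y) : SmallC B T U N k a θ y := by
  intro I hI r hr l x hx
  have h1 := h I hI (finProdFinEquiv (⟨r, by omega⟩, l)) x hx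
  simp only [Equiv.symm_apply_apply] at h1
  exact h1

open Classical in
theorem cls_chowla' (s : ℕ) (b : ℕ) (κ : Fin s → ℤ) (C : Fin s → ℕ → (ℕ → ℝ) → Prop) (hC : ∀ i, Cls b (κ i) (C i)) (B T W U : ℕ) :
    ∃ k₀ : ℕ, ∀ k : ℕ, k₀ ≤ k → ∀ p : Fin s → ℕ → ℝ, (∀ i, C i k (p i)) → ∀ c : Fin s → ℤ, (∀ i, |c i| ≤ B * (b : ℤ) ^ k) →
      ∀ L : ℕ, (L : ℝ) ≤ (k : ℝ) ^ T → ∀ (a : Fin s → ℕ) (θ : Fin L → ℕ → ℂ), (∀ j, 1 ≤ a j) → (∀ l n, ‖θ l n‖ ≤ 1) →
      ∑ v ∈ Fintype.piFinset (fun _ : Fin s => range (b ^ k)),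
        (if NearT W k (SmallC B T U (b ^ k) k a θ) (fun i => c i + κ i * (v i : ℕ)) then 0 else ∏ i, p i (v i)) ≤ 1 / (k : ℝ) ^ U := by
  obtain ⟨k₀, h0⟩ := cls_chowla s b κ C hC B (2 * T + 1) W U
  refine ⟨k₀ + 2, fun k hk p hp c hc L hL a θ ha hθ => ?_⟩
  have hk2 : (2 : ℝ) ≤ k := by exact_mod_cast (by omega : 2 ≤ k)
  have hL' : (((k ^ T + 1) * L : ℕ) : ℝ) ≤ (k : ℝ) ^ (2 * T + 1) := by
    push_cast
    have h1 : (1 : ℝ) ≤ (k : ℝ) ^ T := one_le_pow₀ (by linarith)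
    calc ((k : ℝ) ^ T + 1) * L ≤ (k * (k : ℝ) ^ T) * (k : ℝ) ^ T := by
          apply mul_le_mul _ hL (Nat.cast_nonneg _) (by positivity)
          nlinarith
      _ = _ := by rw [two_mul, pow_succ, pow_add]; ring
  have h1 := h0 k (by omega) p hp c hc ((k ^ T + 1) * L) hL' a
    (fun (q : Fin ((k ^ T + 1) * L)) n => θ (finProdFinEquiv.symm q).2 n *
      ∏ j ∈ range (finProdFinEquiv.symm q).1, (lam (n + j) : ℂ)) ha (fun q n => by
      rw [norm_mul, norm_prod]
      calc _ ≤ (1 : ℝ) * 1 := mul_le_mul (hθ _ _) (prod_le_one (fun _ _ => norm_nonneg _) fun _ _ => norm_lam _)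
            (prod_nonneg fun _ _ => norm_nonneg _) zero_le_one
        _ = 1 := one_mul 1)
  refine le_trans (sum_le_sum fun v _ => ?_) h1
  have hp0 : 0 ≤ ∏ i, p i (v i) := prod_nonneg fun i _ => (hC i).nonneg k _ (hp i) _
  by_cases hv : NearT W k (SmallT B U (b ^ k) k a (fun (q : Fin ((k ^ T + 1) * L)) n => θ (finProdFinEquiv.symm q).2 n *
      ∏ j ∈ range (finProdFinEquiv.symm q).1, (lam (n + j) : ℂ))) (fun i => c i + κ i * (v i : ℕ))
  · rw [if_pos hv, if_pos]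
    exact fun y' hy' => smallC_of a θ y' (hv y' hy')
  · rw [if_neg hv]
    split_ifs
    · exact hp0
    · exact le_rfl

open Classical in
theorem br_chowla (s b : ℕ) (P : Fin s → Finset (ℕ × ℕ)) (E : Fin s → Finset ℕ) (hA : ∀ i, Alphabet b (P i) (E i))
    (κ : Fin s → ℤ) (hκ : ∀ i, κ i ≠ 0) (B T W U : ℕ) :
    ∃ k₀ : ℕ, ∀ k : ℕ, k₀ ≤ k → ∀ c : Fin s → ℤ, (∀ i, |c i| ≤ B * (b : ℤ) ^ k) →
      ∀ L : ℕ, (L : ℝ) ≤ (k : ℝ) ^ T → ∀ (a : Fin s → ℕ) (θ : Fin L → ℕ → ℂ), (∀ j, 1 ≤ a j) → (∀ l n, ‖θ l n‖ ≤ 1) →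
      (((Fintype.piFinset fun i => brackets b (P i) (E i) k).filter fun v =>
        ¬ NearT W k (SmallC B T U (b ^ k) k a θ) (fun i => c i + κ i * (v i : ℕ))).card : ℝ) ≤
        (Fintype.piFinset fun i => brackets b (P i) (E i) k).card / (k : ℝ) ^ U := by
  obtain ⟨k₀, h0⟩ := cls_chowla' s b κ (fun i => BrC b (P i) (E i)) (fun i => br_cls (hA i) (κ i) (hκ i)) B T W U
  refine ⟨k₀, fun k hk c hc L hL a θ ha hθ => ?_⟩
  by_cases hk2 : ∀ i, Even k ∨ (E i).Nonempty
  · have h1 := h0 k hk (fun i v => if v ∈ brackets b (P i) (E i) k then 1 / ((brackets b (P i) (E i) k).card : ℝ) else 0)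
      (fun i => ⟨hk2 i, rfl⟩) c hc L hL a θ ha hθ
    obtain ⟨Q, hQ⟩ : ∃ Q : (Fin s → ℕ) → Prop, Q = fun v => NearT W k (SmallC B T U (b ^ k) k a θ) (fun i => c i + κ i * (v i : ℕ)) := ⟨_, rfl⟩
    have hQv : ∀ v, Q v = NearT W k (SmallC B T U (b ^ k) k a θ) (fun i => c i + κ i * (v i : ℕ)) := fun v => by rw [hQ]
    simp only [← hQv] at h1 ⊢
    obtain ⟨F, hF⟩ : ∃ F, F = Fintype.piFinset fun i => brackets b (P i) (E i) k := ⟨_, rfl⟩
    have hpos : ∀ i, (0 : ℝ) < (brackets b (P i) (E i) k).card := fun i => by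
      exact_mod_cast card_pos_of (hA i) k (hk2 i)
    have hFc : (F.card : ℝ) = ∏ i, ((brackets b (P i) (E i) k).card : ℝ) := by
      rw [hF, Fintype.card_piFinset]
      push_cast
      rfl
    have hFpos : (0 : ℝ) < F.card := by rw [hFc]; exact prod_pos fun i _ => hpos i
    rw [← hF]
    have h2 : ((F.filter fun v => ¬ Q v).card : ℝ) / F.card ≤ 1 / (k : ℝ) ^ U := by
      refine le_trans ?_ h1
      rw [← mul_one_div, ← nsmul_eq_mul, ← sum_const]
      have hsub : F.filter (fun v => ¬ Q v) ⊆ Fintype.piFinset (fun _ : Fin s => range (b ^ k)) := by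
        intro v hv
        rw [mem_filter, hF, Fintype.mem_piFinset] at hv
        rw [Fintype.mem_piFinset]
        exact fun i => br_sub _ (hv.1 i)
      refine le_trans (le_of_eq ?_) (sum_le_sum_of_subset_of_nonneg hsub ?_)
      · apply sum_congr rfl
        intro v hv
        rw [mem_filter, hF, Fintype.mem_piFinset] at hv
        rw [if_neg hv.2, hFc, one_div, ← prod_inv_distrib]
        apply prod_congr rfl
        intro i _
        rw [if_pos (hv.1 i), one_div]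
      · intro v _ _
        have hn : 0 ≤ ∏ i, (if v i ∈ brackets b (P i) (E i) k then 1 / ((brackets b (P i) (E i) k).card : ℝ) else 0) := by
          apply prod_nonneg
          intro i _
          split_ifs
          · positivity
          · exact le_rfl
        by_cases hQ : Q v
        · rw [if_pos hQ]
        · rw [if_neg hQ]
          exact hn
    rw [div_le_iff₀ hFpos] at h2
    refine h2.trans (le_of_eq ?_)
    ring
  · push Not at hk2
    obtain ⟨i, hi1, hi2⟩ := hk2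
    have he : (Fintype.piFinset fun i => brackets b (P i) (E i) k) = ∅ := by
      rw [eq_empty_iff_forall_notMem]
      intro v hv
      rw [Fintype.mem_piFinset] at hv
      have := hv i
      rw [br_empty k (fun h => by
        rcases h with h | h
        · exact hi1 h
        · rw [hi2] at h; exact not_nonempty_empty h)] at this
      exact notMem_empty _ this
    rw [he, filter_empty, card_empty, Nat.cast_zero, zero_div]

end Pool.Agent.N625.DY
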